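import Mathlib
import Pool.Agent.Helper11.Can.Defs
import Pool.Agent.Helper96.Iso.Kempf2

/-!
# CAN-L20: self-dual filtrations with the vanishing property come from adapted weights
(project CAN, MP_5f0950_ag)
-/

universe u

open Finset Matrix

namespace Pool.Agent.Helper11.Can

open Pool.Agent.Helper10.GIT Pool.Agent.Helper11.GIT

variable {P : ℕ} {d : Fin P → ℕ}

namespace L20

lemma mem_flag {κ : Type*} [Field κ] {h : Mats d κ} {γ : WSpace d} {c : Fin P} {a : ℝ}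
    {x : Fin (d c) → κ} :
    x ∈ flag h γ c a ↔ ∀ b, γ ⟨c, b⟩ < a → (h c).mulVec x b = 0 := Iff.rfl

/-- the vector `row b of h ᵥ* G` -/
def xv {κ : Type*} [Field κ] (h G : Mats d κ) (c : Fin P) (b : Fin (d c)) : Fin (d c) → κ :=
  (h c b) ᵥ* G c

lemma xv_mul {κ : Type*} [Field κ] {h G B : Mats d κ} (hGB : ∀ c, G c * B c = 1) (c : Fin P)
    (b : Fin (d c)) : xv h G c b ᵥ* B c = h c b := by
  rw [xv, Matrix.vecMul_vecMul, hGB, Matrix.vecMul_one]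

lemma xv_mem {κ : Type*} [Field κ] {h : Mats d κ} {γ : WSpace d} {G B : Mats d κ}
    (hGB : ∀ c, G c * B c = 1)
    (hdual : ∀ c a x, x ∈ flag h γ c a ↔
      ∀ a', -a < a' → ∀ y ∈ flag h γ c a', x ⬝ᵥ (B c).mulVec y = 0)
    (c : Fin P) (b : Fin (d c)) : xv h G c b ∈ flag h γ c (-γ ⟨c, b⟩) := by
  rw [hdual]
  intro a' ha' y hy
  rw [Matrix.dotProduct_mulVec, xv_mul hGB]
  exact hy b (by linarith)

/-- the column `b` of the inverse -/
noncomputable def vv {κ : Type*} [Field κ] (h : Mats d κ) (c : Fin P) (b : Fin (d c)) : Fin (d c) → κ :=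
  (h c)⁻¹.mulVec (Pi.single b 1)

lemma vv_mem {κ : Type*} [Field κ] {h : Mats d κ} {γ : WSpace d} (hh : ∀ c, (h c).det ≠ 0)
    (c : Fin P) (b : Fin (d c)) : vv h c b ∈ flag h γ c (γ ⟨c, b⟩) := by
  intro b' hb'
  rw [vv, Matrix.mulVec_mulVec, Matrix.mul_nonsing_inv _ (isUnit_iff_ne_zero.2 (hh c)),
    Matrix.one_mulVec]
  refine Pi.single_eq_of_ne ?_ _
  rintro rfl
  exact lt_irrefl _ hb'

lemma sum_nonneg' {κ : Type u} [Field κ] {h : Mats d κ}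
    (hh : ∀ c, (h c).det ≠ 0) (γ : WSpace d) (G B : Mats d κ) (hGB : ∀ c, G c * B c = 1)
    (hdual : ∀ c a x, x ∈ flag h γ c a ↔
      ∀ a', -a < a' → ∀ y ∈ flag h γ c a', x ⬝ᵥ (B c).mulVec y = 0) (c : Fin P) :
    0 ≤ ∑ b, γ ⟨c, b⟩ := by
  have hGd : (G c).det ≠ 0 := by
    intro h0
    have := congrArg Matrix.det (hGB c)
    rw [Matrix.det_mul, h0, zero_mul, Matrix.det_one] at this
    exact zero_ne_one this
  have hdet : (h c * G c * (h c)ᵀ).det ≠ 0 := by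
    rw [Matrix.det_mul, Matrix.det_mul, Matrix.det_transpose]
    exact mul_ne_zero (mul_ne_zero (hh c) hGd) (hh c)
  obtain ⟨π, hπ⟩ := exists_perm hdet
  have h5 : ∀ b ∈ (Finset.univ : Finset (Fin (d c))), 0 ≤ γ ⟨c, π b⟩ + γ ⟨c, b⟩ := by
    intro b _
    by_contra hneg
    push Not at hneg
    apply hπ b
    have hx := xv_mem hGB hdual c (π b)
    have h6 := hx b (by linarith)
    rw [← h6]
    show ((h c * G c * (h c)ᵀ) (π b) b) = _
    rw [Matrix.mul_apply_eq_vecMul, Matrix.vecMul_transpose]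
    congr 1
  have h6 : 0 ≤ ∑ b, (γ ⟨c, π b⟩ + γ ⟨c, b⟩) := Finset.sum_nonneg h5
  rw [Finset.sum_add_distrib, Equiv.sum_comp π (fun a => γ ⟨c, a⟩)] at h6
  linarith

lemma sum_nonpos' {κ : Type u} [Field κ] {h : Mats d κ}
    (hh : ∀ c, (h c).det ≠ 0) (γ : WSpace d) (G B : Mats d κ) (hGB : ∀ c, G c * B c = 1)
    (hdual : ∀ c a x, x ∈ flag h γ c a ↔
      ∀ a', -a < a' → ∀ y ∈ flag h γ c a', x ⬝ᵥ (B c).mulVec y = 0) (c : Fin P) :
    ∑ b, γ ⟨c, b⟩ ≤ 0 := by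
  have hBd : (B c).det ≠ 0 := by
    intro h0
    have := congrArg Matrix.det (hGB c)
    rw [Matrix.det_mul, h0, mul_zero, Matrix.det_one] at this
    exact zero_ne_one this
  have hid : ((h c)⁻¹).det ≠ 0 := by
    intro h0
    have h1 := Matrix.mul_nonsing_inv (h c) (isUnit_iff_ne_zero.2 (hh c))
    have := congrArg Matrix.det h1
    rw [Matrix.det_mul, h0, mul_zero, Matrix.det_one] at this
    exact zero_ne_one this
  have hdet : (((h c)⁻¹)ᵀ * B c * (h c)⁻¹).det ≠ 0 := by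
    rw [Matrix.det_mul, Matrix.det_mul, Matrix.det_transpose]
    exact mul_ne_zero (mul_ne_zero hid hBd) hid
  obtain ⟨π, hπ⟩ := exists_perm hdet
  have h5 : ∀ b ∈ (Finset.univ : Finset (Fin (d c))), γ ⟨c, π b⟩ + γ ⟨c, b⟩ ≤ 0 := by
    intro b _
    by_contra hneg
    push Not at hneg
    apply hπ b
    have hx := (hdual c _ _).1 (vv_mem (γ := γ) hh c (π b)) (γ ⟨c, b⟩) (by linarith)
      (vv h c b) (vv_mem hh c b)
    have hv : ∀ b i, vv h c b i = (h c)⁻¹ i b := by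
      intro b i
      rw [vv, Matrix.mulVec_single_one]
      rfl
    rw [← hx]
    simp only [Matrix.mul_apply, dotProduct, Matrix.mulVec, hv,
      Matrix.transpose_apply, Finset.sum_mul, Finset.mul_sum]
    rw [Finset.sum_comm]
    refine Finset.sum_congr rfl fun i _ => Finset.sum_congr rfl fun j _ => ?_
    ring
  have h6 : ∑ b, (γ ⟨c, π b⟩ + γ ⟨c, b⟩) ≤ 0 := Finset.sum_nonpos h5
  rw [Finset.sum_add_distrib, Equiv.sum_comp π (fun a => γ ⟨c, a⟩)] at h6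
  linarith

lemma act_eq {κ : Type u} [Field κ] {h G B : Mats d κ} (hGB : ∀ c, G c * B c = 1)
    {χ : Shape P} (z : Ten d κ χ) (w : Word d χ) :
    act (sh h χ) z w =
      ∑ w' : Word d χ, z w' * ∏ i, (xv h G (χ.2 i) (w i) ᵥ* B (χ.2 i)) (w' i) := by
  rw [act_apply]
  refine Finset.sum_congr rfl fun w' _ => ?_
  rw [mul_comm]
  congr 1
  refine Finset.prod_congr rfl fun i _ => ?_
  rw [xv_mul hGB]
  rfl

end L20

/-- CAN-L20: self-dual filtrations with the vanishing property come from adapted weights. -/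
theorem adapted_of_dual {κ : Type u} [Field κ] {A N : Family d κ} {h : Mats d κ}
    (hh : ∀ c, (h c).det ≠ 0) (γ : WSpace d) (G B : Mats d κ) (hGB : ∀ c, G c * B c = 1)
    (hdual : ∀ c a x, x ∈ flag h γ c a ↔
      ∀ a', -a < a' → ∀ y ∈ flag h γ c a', x ⬝ᵥ (B c).mulVec y = 0)
    (hvan : ∀ χ (z : Ten d κ χ) (a : Fin χ.1 → ℝ) (x : ∀ i, Fin (d (χ.2 i)) → κ),
      (∀ i, x i ∈ flag h γ (χ.2 i) (a i)) →
      ((z ∈ A χ ∧ 0 < ∑ i, a i) ∨ (z ∈ N χ ∧ -1 < ∑ i, a i)) →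
      ∑ w : Word d χ, z w * ∏ i, (x i ᵥ* B (χ.2 i)) (w i) = 0) :
    Adapted A N h γ := by
  refine ⟨hh, fun c => le_antisymm (L20.sum_nonpos' hh γ G B hGB hdual c)
    (L20.sum_nonneg' hh γ G B hGB hdual c), ?_, ?_⟩
  · rintro ⟨χ, w⟩ ⟨z, hz, hne⟩
    by_contra hlt
    push Not at hlt
    apply hne
    rw [L20.act_eq hGB]
    refine hvan χ z (fun i => -γ ⟨χ.2 i, w i⟩) _ (fun i => L20.xv_mem hGB hdual _ _) (Or.inl ⟨hz, ?_⟩)
    rw [Finset.sum_neg_distrib]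
    have : wgt γ ⟨χ, w⟩ = ∑ i, γ ⟨χ.2 i, w i⟩ := rfl
    linarith
  · rintro ⟨χ, w⟩ ⟨z, hz, hne⟩
    by_contra hlt
    push Not at hlt
    apply hne
    rw [L20.act_eq hGB]
    refine hvan χ z (fun i => -γ ⟨χ.2 i, w i⟩) _ (fun i => L20.xv_mem hGB hdual _ _) (Or.inr ⟨hz, ?_⟩)
    rw [Finset.sum_neg_distrib]
    have : wgt γ ⟨χ, w⟩ = ∑ i, γ ⟨χ.2 i, w i⟩ := rfl
    linarith

end Pool.Agent.Helper11.Can
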